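import Pool.Agent.Q31.RG.Poly

set_option autoImplicit false

/-! # The interpolation inequality for finite sequences -/

open Finset Polynomial

namespace Pool.Agent.Q31.RG

/-- sum of the squares of the coefficients -/
noncomputable def nsq (P : ℂ[X]) : ℝ := ∑ i ∈ P.support, ‖P.coeff i‖ ^ 2

lemma nsq_eq (P : ℂ[X]) : nsq P = Real.circleAverage (fun z => ‖P.eval z‖ ^ 2) 0 1 :=
  Polynomial.sum_sq_norm_coeff_eq_circleAverage P

lemma nsq_range (P : ℂ[X]) (n : ℕ) (h : ∀ i, n ≤ i → P.coeff i = 0) :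
    nsq P = ∑ i ∈ range n, ‖P.coeff i‖ ^ 2 := by
  unfold nsq
  refine Finset.sum_subset ?_ ?_
  · intro i hi
    rw [Polynomial.mem_support_iff] at hi
    rw [Finset.mem_range]
    by_contra hcon
    exact hi (h i (not_lt.mp hcon))
  · intro i _ hi
    rw [Polynomial.notMem_support_iff] at hi
    rw [hi]
    simp

lemma ci_norm_sq (P : ℂ[X]) : CircleIntegrable (fun z => ‖P.eval z‖ ^ 2) 0 1 := by
  apply ContinuousOn.circleIntegrable (by norm_num)
  exact (P.continuous.norm.pow 2).continuousOn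

lemma nsq_mono {ι : Type*} (s : Finset ι) (P : ℂ[X]) (Q : ι → ℂ[X]) (A : ℝ)
    (h : ∀ z : ℂ, ‖z‖ = 1 → ‖P.eval z‖ ^ 2 ≤ A * ∑ i ∈ s, ‖(Q i).eval z‖ ^ 2) :
    nsq P ≤ A * ∑ i ∈ s, nsq (Q i) := by
  have h1 : A * ∑ i ∈ s, nsq (Q i) =
      Real.circleAverage (fun z => A * ∑ i ∈ s, ‖(Q i).eval z‖ ^ 2) 0 1 := by
    have h2 : Real.circleAverage (fun z => A • (∑ i ∈ s, (fun z => ‖(Q i).eval z‖ ^ 2)) z) 0 1 =
        A • Real.circleAverage (∑ i ∈ s, (fun z => ‖(Q i).eval z‖ ^ 2)) 0 1 :=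
      Real.circleAverage_fun_smul
    rw [Real.circleAverage_sum (fun i _ => ci_norm_sq (Q i))] at h2
    simp only [smul_eq_mul, Finset.sum_apply] at h2
    rw [h2]
    congr 1
    exact Finset.sum_congr rfl fun i _ => nsq_eq _
  rw [nsq_eq, h1]
  refine Real.circleAverage_mono (ci_norm_sq P) ?_ ?_
  · apply ContinuousOn.circleIntegrable (by norm_num)
    refine Continuous.continuousOn ?_
    exact continuous_const.mul (continuous_finsetSum _ fun i _ => ((Q i).continuous.norm.pow 2))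
  · intro z hz
    apply h
    simpa using hz

/-- the geometric sum, as a polynomial -/
noncomputable def Dp (r : ℕ) : ℂ[X] := ∑ i ∈ range r, X ^ i

lemma Dp_eval (r : ℕ) (z : ℂ) : (Dp r).eval z = Dz r z := by
  unfold Dp Dz
  rw [Polynomial.eval_finsetSum]
  simp

/-- the averaging polynomial -/
noncomputable def Cp (K : ℕ) : ℂ[X] :=
  C (1 / (K : ℂ)) * ∑ k ∈ range K, C (1 / (2 : ℂ) ^ (k + 1)) *
    (Dp (2 ^ (k + 1)) * Dp (2 ^ (k + 1)) * X ^ (2 ^ K - 2 ^ (k + 1)))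

lemma Cp_eval (K : ℕ) {z : ℂ} (hz : ‖z‖ = 1) : ‖(Cp K).eval z‖ ≤ 1 / K * SK K z := by
  unfold Cp SK
  rw [Polynomial.eval_mul, Polynomial.eval_C, norm_mul, Polynomial.eval_finsetSum]
  have h1 : ‖(1 : ℂ) / (K : ℂ)‖ = 1 / K := by simp
  rw [h1]
  refine mul_le_mul_of_nonneg_left ?_ (by positivity)
  refine (norm_sum_le _ _).trans (Finset.sum_le_sum fun k _ => le_of_eq ?_)
  rw [Polynomial.eval_mul, Polynomial.eval_C, Polynomial.eval_mul, Polynomial.eval_mul, Dp_eval,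
    Polynomial.eval_pow, Polynomial.eval_X, norm_mul, norm_mul, norm_mul, norm_pow, hz, one_pow]
  unfold qk
  have h2 : ‖(1 : ℂ) / (2 : ℂ) ^ (k + 1)‖ = 1 / 2 ^ (k + 1) := by simp
  rw [h2]
  ring

/-- **the inequality for polynomials** -/
theorem poly_ineq (K : ℕ) (hK : 2 ≤ K) (P : ℂ[X]) :
    nsq (Cp K * P) ≤ 3072 / (K ^ 2 * 2 ^ K) * ∑ r ∈ range (2 ^ K), nsq (Dp (r + 1) * P) := by
  apply nsq_mono
  intro z hz
  have h1 := Cp_eval K hz
  have h2 := point hz K hK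
  have hK0 : (0 : ℝ) < K := by
    have : 0 < K := by omega
    exact_mod_cast this
  rw [Polynomial.eval_mul, norm_mul, mul_pow]
  have h3 : ‖(Cp K).eval z‖ ^ 2 ≤ 3072 / (K ^ 2 * 2 ^ K) * AR (2 ^ K) z := by
    calc ‖(Cp K).eval z‖ ^ 2 ≤ (1 / K * SK K z) ^ 2 :=
          pow_le_pow_left₀ (norm_nonneg _) h1 2
      _ = 1 / K ^ 2 * SK K z ^ 2 := by ring
      _ ≤ 1 / K ^ 2 * (3072 / 2 ^ K * AR (2 ^ K) z) := by gcongr
      _ = _ := by field_simp
  have h4 : ∑ r ∈ range (2 ^ K), ‖(Dp (r + 1) * P).eval z‖ ^ 2 =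
      AR (2 ^ K) z * ‖P.eval z‖ ^ 2 := by
    unfold AR
    rw [Finset.sum_mul]
    refine Finset.sum_congr rfl fun r _ => ?_
    rw [Polynomial.eval_mul, norm_mul, mul_pow, Dp_eval]
  rw [h4]
  calc ‖(Cp K).eval z‖ ^ 2 * ‖P.eval z‖ ^ 2 ≤
      3072 / (K ^ 2 * 2 ^ K) * AR (2 ^ K) z * ‖P.eval z‖ ^ 2 := by gcongr
    _ = _ := by ring

/-- the polynomial of a sequence -/
noncomputable def Px (x : ℤ → ℝ) (N : ℕ) : ℂ[X] := ∑ n ∈ range N, C (x n : ℂ) * X ^ n

variable {x : ℤ → ℝ} {N : ℕ}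

lemma Px_coeff (hx : ∀ n, x n ≠ 0 → 0 ≤ n ∧ n < N) (n : ℕ) : (Px x N).coeff n = x n := by
  unfold Px
  rw [Polynomial.finsetSum_coeff]
  simp only [Polynomial.coeff_C_mul_X_pow]
  by_cases h : n < N
  · rw [Finset.sum_eq_single n]
    · simp
    · intro b _ hb
      rw [if_neg (fun h => hb h.symm)]
    · intro h'
      exact absurd (Finset.mem_range.2 h) h'
  · have h1 : x n = 0 := by
      by_contra hcon
      have := (hx n hcon).2
      omega
    rw [h1]
    refine Finset.sum_eq_zero fun b hb => ?_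
    rw [Finset.mem_range] at hb
    rw [if_neg (by omega)]

lemma X_coeff (hx : ∀ n, x n ≠ 0 → 0 ≤ n ∧ n < N) (s m : ℕ) :
    (X ^ s * Px x N).coeff m = ((x ((m : ℤ) - s) : ℝ) : ℂ) := by
  rw [Polynomial.coeff_X_pow_mul']
  by_cases h : s ≤ m
  · rw [if_pos h, Px_coeff hx]
    congr 2
    omega
  · rw [if_neg h]
    have : x ((m : ℤ) - s) = 0 := by
      by_contra hcon
      have := (hx _ hcon).1
      omega
    rw [this]
    simp

lemma D_coeff (hx : ∀ n, x n ≠ 0 → 0 ≤ n ∧ n < N) (r m : ℕ) :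
    (Dp r * Px x N).coeff m = ((∑ i ∈ range r, x ((m : ℤ) - i) : ℝ) : ℂ) := by
  unfold Dp
  rw [Finset.sum_mul, Polynomial.finsetSum_coeff]
  push_cast
  exact Finset.sum_congr rfl fun i _ => X_coeff hx i m

/-- triangular sums -/
lemma tri (f : ℤ → ℝ) (r : ℕ) : ∑ u ∈ range r, ∑ v ∈ range r, f ((v : ℤ) - u) =
    ∑ j ∈ Ioo (-(r : ℤ)) r, ((r : ℝ) - |(j : ℝ)|) * f j := by
  induction r with
  | zero => simp
  | succ r ih =>
    have h1 : ∑ u ∈ range (r + 1), ∑ v ∈ range (r + 1), f ((v : ℤ) - u) =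
        ∑ u ∈ range r, ∑ v ∈ range r, f ((v : ℤ) - u) +
        ∑ u ∈ range r, f ((r : ℤ) - u) + ∑ v ∈ range r, f ((v : ℤ) - r) + f 0 := by
      rw [Finset.sum_range_succ, Finset.sum_range_succ (n := r) (f := fun v => f ((v : ℤ) - r))]
      have : ∀ u ∈ range r, ∑ v ∈ range (r + 1), f ((v : ℤ) - u) =
          ∑ v ∈ range r, f ((v : ℤ) - u) + f ((r : ℤ) - u) := fun u _ => Finset.sum_range_succ _ _
      rw [Finset.sum_congr rfl this, Finset.sum_add_distrib]
      simp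
      ring
    have h2 : ∑ j ∈ Ioo (-((r + 1 : ℕ) : ℤ)) (r + 1 : ℕ), (((r + 1 : ℕ) : ℝ) - |(j : ℝ)|) * f j =
        ∑ j ∈ Ioo (-((r + 1 : ℕ) : ℤ)) (r + 1 : ℕ), ((r : ℝ) - |(j : ℝ)|) * f j +
        ∑ j ∈ Ioo (-((r + 1 : ℕ) : ℤ)) (r + 1 : ℕ), f j := by
      rw [← Finset.sum_add_distrib]
      refine Finset.sum_congr rfl fun j _ => ?_
      push_cast
      ring
    have h3 : ∑ j ∈ Ioo (-((r + 1 : ℕ) : ℤ)) (r + 1 : ℕ), ((r : ℝ) - |(j : ℝ)|) * f j =
        ∑ j ∈ Ioo (-(r : ℤ)) r, ((r : ℝ) - |(j : ℝ)|) * f j := by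
      symm
      refine Finset.sum_subset ?_ ?_
      · intro j hj
        rw [Finset.mem_Ioo] at *
        push_cast
        omega
      · intro j hj hj'
        rw [Finset.mem_Ioo] at *
        push_cast at hj
        have h4 : j = r ∨ j = -(r : ℤ) := by omega
        have h5 : |(j : ℝ)| = r := by
          rcases h4 with h4 | h4 <;> rw [h4] <;> simp
        rw [h5, sub_self, zero_mul]
    have h4 : ∑ j ∈ Ioo (-((r + 1 : ℕ) : ℤ)) (r + 1 : ℕ), f j =
        ∑ u ∈ range r, f ((r : ℤ) - u) + ∑ v ∈ range r, f ((v : ℤ) - r) + f 0 := by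
      have h5 : Ioo (-((r + 1 : ℕ) : ℤ)) (r + 1 : ℕ) =
          ((range r).image fun u : ℕ => (r : ℤ) - u) ∪ ((range r).image fun v : ℕ => (v : ℤ) - r) ∪ {0} := by
        ext j
        simp only [Finset.mem_Ioo, Finset.mem_union, Finset.mem_image, Finset.mem_range,
          Finset.mem_singleton]
        constructor
        · rintro ⟨h6, h7⟩
          push_cast at h6 h7
          rcases lt_trichotomy j 0 with h8 | h8 | h8
          · left; right
            refine ⟨(j + r).toNat, ?_, ?_⟩ <;> omega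
          · right; exact h8
          · left; left
            refine ⟨(r - j).toNat, ?_, ?_⟩ <;> omega
        · rintro ((⟨u, hu, rfl⟩ | ⟨v, hv, rfl⟩) | rfl)
          · push_cast; omega
          · push_cast; omega
          · push_cast; omega
      rw [h5, Finset.sum_union, Finset.sum_union, Finset.sum_image, Finset.sum_image,
        Finset.sum_singleton]
      · intro a _ b _ hab
        simpa using hab
      · intro a _ b _ hab
        simpa using hab
      · rw [Finset.disjoint_left]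
        intro j hj hj'
        simp only [Finset.mem_image, Finset.mem_range] at hj hj'
        obtain ⟨u, hu, rfl⟩ := hj
        obtain ⟨v, hv, h6⟩ := hj'
        omega
      · rw [Finset.disjoint_left]
        intro j hj hj'
        rw [Finset.mem_singleton] at hj'
        subst hj'
        simp only [Finset.mem_union, Finset.mem_image, Finset.mem_range] at hj
        rcases hj with ⟨u, hu, h6⟩ | ⟨u, hu, h6⟩ <;> omega
    rw [h1, h2, h3, h4, ih]
    ring

/-- the coefficients: the average of the triangles `max(0, 1 - |j| / 2^k)`, `1 ≤ k ≤ K` -/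
noncomputable def c (K : ℕ) (j : ℤ) : ℝ :=
  1 / K * ∑ k ∈ range K, max 0 (1 - |(j : ℝ)| / 2 ^ (k + 1))

lemma c_zero (K : ℕ) (hK : 1 ≤ K) : c K 0 = 1 := by
  unfold c
  have : (K : ℝ) ≠ 0 := by
    have : K ≠ 0 := by omega
    exact_mod_cast this
  simp
  field_simp

lemma C_coeff (hx : ∀ n, x n ≠ 0 → 0 ≤ n ∧ n < N) (K m : ℕ) :
    (Cp K * Px x N).coeff m =
      ((∑ j ∈ Ioo (-(2 : ℤ) ^ K) (2 ^ K), c K j * x ((m : ℤ) - (2 ^ K - 1) + j) : ℝ) : ℂ) := by
  have h1 : ∀ k ∈ range K, ((C (1 / (2 : ℂ) ^ (k + 1)) *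
      (Dp (2 ^ (k + 1)) * Dp (2 ^ (k + 1)) * X ^ (2 ^ K - 2 ^ (k + 1)))) * Px x N).coeff m =
      ((∑ j ∈ Ioo (-(2 : ℤ) ^ K) (2 ^ K), max 0 (1 - |(j : ℝ)| / 2 ^ (k + 1)) *
        x ((m : ℤ) - (2 ^ K - 1) + j) : ℝ) : ℂ) := by
    intro k hk
    rw [Finset.mem_range] at hk
    have hpow : (2 : ℕ) ^ (k + 1) ≤ 2 ^ K := Nat.pow_le_pow_right (by norm_num) hk
    obtain ⟨r, hr⟩ : ∃ r : ℕ, r = 2 ^ (k + 1) := ⟨_, rfl⟩
    obtain ⟨R, hR⟩ : ∃ R : ℕ, R = 2 ^ K := ⟨_, rfl⟩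
    have hr1 : 1 ≤ r := by rw [hr]; exact Nat.one_le_two_pow
    have hrc : (2 : ℂ) ^ (k + 1) = (r : ℂ) := by rw [hr]; push_cast; rfl
    have hrr : (2 : ℝ) ^ (k + 1) = (r : ℝ) := by rw [hr]; push_cast; rfl
    have hRz : (2 : ℤ) ^ K = (R : ℤ) := by rw [hR]; push_cast; rfl
    have hrR : r ≤ R := by rw [hr, hR]; exact hpow
    rw [← hr, ← hR, hrc, hrr, hRz]
    have e1 : C (1 / (r : ℂ)) * (Dp r * Dp r * X ^ (R - r)) * Px x N =
        C (1 / (r : ℂ)) * (∑ u ∈ range r, ∑ v ∈ range r, X ^ (u + (r - 1 - v) + (R - r)) * Px x N) := by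
      rw [mul_assoc]
      congr 1
      have e2 : Dp r = ∑ v ∈ range r, (X : ℂ[X]) ^ (r - 1 - v) := by
        unfold Dp
        exact (Finset.sum_range_reflect (fun i => (X : ℂ[X]) ^ i) r).symm
      calc Dp r * Dp r * X ^ (R - r) * Px x N = Dp r * (Dp r * (X ^ (R - r) * Px x N)) := by ring
        _ = (∑ u ∈ range r, (X : ℂ[X]) ^ u) *
            ((∑ v ∈ range r, (X : ℂ[X]) ^ (r - 1 - v)) * (X ^ (R - r) * Px x N)) := by
          rw [← e2]; rfl
        _ = _ := by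
          rw [Finset.sum_mul]
          refine Finset.sum_congr rfl fun u _ => ?_
          rw [Finset.sum_mul, Finset.mul_sum]
          refine Finset.sum_congr rfl fun v _ => ?_
          rw [pow_add, pow_add]
          ring
    rw [e1, Polynomial.coeff_C_mul, Polynomial.finsetSum_coeff]
    have e3 : ∑ u ∈ range r, (∑ v ∈ range r, X ^ (u + (r - 1 - v) + (R - r)) * Px x N).coeff m =
        ((∑ u ∈ range r, ∑ v ∈ range r, x ((m : ℤ) - (R - 1) + ((v : ℤ) - u)) : ℝ) : ℂ) := by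
      push_cast
      refine Finset.sum_congr rfl fun u _ => ?_
      rw [Polynomial.finsetSum_coeff]
      refine Finset.sum_congr rfl fun v hv => ?_
      rw [Finset.mem_range] at hv
      rw [X_coeff hx]
      congr 2
      push_cast [Nat.cast_sub hrR, Nat.cast_sub (by omega : v ≤ r - 1), Nat.cast_sub hr1]
      ring
    rw [e3, tri (fun j => x ((m : ℤ) - (R - 1) + j)) r]
    rw [show (1 : ℂ) / (r : ℂ) = ((1 / r : ℝ) : ℂ) by push_cast; rfl, ← Complex.ofReal_mul]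
    congr 1
    rw [Finset.mul_sum]
    have hr0 : (0 : ℝ) < r := by exact_mod_cast hr1
    have e4 : ∑ j ∈ Ioo (-(R : ℤ)) R, max 0 (1 - |(j : ℝ)| / r) * x ((m : ℤ) - (R - 1) + j) =
        ∑ j ∈ Ioo (-(r : ℤ)) r, max 0 (1 - |(j : ℝ)| / r) * x ((m : ℤ) - (R - 1) + j) := by
      symm
      refine Finset.sum_subset ?_ ?_
      · intro j hj
        rw [Finset.mem_Ioo] at *
        omega
      · intro j _ hj
        rw [Finset.mem_Ioo] at hj
        have h5 : (r : ℝ) ≤ |(j : ℝ)| := by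
          have : (r : ℤ) ≤ |j| := by
            by_contra hcon
            push Not at hcon
            rw [abs_lt] at hcon
            exact hj hcon
          exact_mod_cast this
        have h6 : 1 - |(j : ℝ)| / r ≤ 0 := by
          rw [sub_nonpos, le_div_iff₀ hr0]
          linarith
        rw [max_eq_left h6, zero_mul]
    rw [e4]
    refine Finset.sum_congr rfl fun j hj => ?_
    rw [Finset.mem_Ioo] at hj
    have h5 : |(j : ℝ)| ≤ r := by
      have : |j| ≤ (r : ℤ) := by rw [abs_le]; omega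
      exact_mod_cast this
    have h6 : 0 ≤ 1 - |(j : ℝ)| / r := by
      rw [sub_nonneg, div_le_one hr0]
      exact h5
    rw [max_eq_right h6]
    field_simp
  unfold Cp
  rw [mul_assoc, Polynomial.coeff_C_mul, Finset.sum_mul, Polynomial.finsetSum_coeff,
    Finset.sum_congr rfl h1]
  rw [show (1 : ℂ) / (K : ℂ) = ((1 / K : ℝ) : ℂ) by push_cast; rfl, ← Complex.ofReal_sum,
    ← Complex.ofReal_mul, Finset.sum_comm, Finset.mul_sum]
  congr 1
  refine Finset.sum_congr rfl fun j _ => ?_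
  unfold c
  rw [← Finset.sum_mul]
  ring

/-- **the interpolation inequality for finite sequences** -/
theorem disc (K : ℕ) (hK : 2 ≤ K) (hx : ∀ n, x n ≠ 0 → 0 ≤ n ∧ n < N) :
    ∑ m ∈ range (N + 2 * 2 ^ K),
      (∑ j ∈ Ioo (-(2 : ℤ) ^ K) (2 ^ K), c K j * x ((m : ℤ) - (2 ^ K - 1) + j)) ^ 2 ≤
    3072 / (K ^ 2 * 2 ^ K) * ∑ r ∈ range (2 ^ K), ∑ m ∈ range (N + 2 ^ K),
      (∑ i ∈ range (r + 1), x ((m : ℤ) - i)) ^ 2 := by
  have hRz : (2 : ℤ) ^ K = ((2 ^ K : ℕ) : ℤ) := by push_cast; rfl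
  have h1 : nsq (Cp K * Px x N) = ∑ m ∈ range (N + 2 * 2 ^ K),
      (∑ j ∈ Ioo (-(2 : ℤ) ^ K) (2 ^ K), c K j * x ((m : ℤ) - (2 ^ K - 1) + j)) ^ 2 := by
    rw [nsq_range _ (N + 2 * 2 ^ K)]
    · refine Finset.sum_congr rfl fun m _ => ?_
      rw [C_coeff hx, Complex.norm_real, Real.norm_eq_abs, sq_abs]
    · intro m hm
      rw [C_coeff hx]
      have : ∑ j ∈ Ioo (-(2 : ℤ) ^ K) (2 ^ K), c K j * x ((m : ℤ) - (2 ^ K - 1) + j) = 0 := by
        refine Finset.sum_eq_zero fun j hj => ?_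
        rw [Finset.mem_Ioo] at hj
        have : x ((m : ℤ) - (2 ^ K - 1) + j) = 0 := by
          by_contra hcon
          have h2 := (hx _ hcon).2
          rw [hRz] at h2 hj
          omega
        rw [this, mul_zero]
      rw [this]
      simp
  have h2 : ∀ r ∈ range (2 ^ K), nsq (Dp (r + 1) * Px x N) = ∑ m ∈ range (N + 2 ^ K),
      (∑ i ∈ range (r + 1), x ((m : ℤ) - i)) ^ 2 := by
    intro r hr
    rw [Finset.mem_range] at hr
    rw [nsq_range _ (N + 2 ^ K)]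
    · refine Finset.sum_congr rfl fun m _ => ?_
      rw [D_coeff hx, Complex.norm_real, Real.norm_eq_abs, sq_abs]
    · intro m hm
      rw [D_coeff hx]
      have : ∑ i ∈ range (r + 1), x ((m : ℤ) - i) = 0 := by
        refine Finset.sum_eq_zero fun i hi => ?_
        rw [Finset.mem_range] at hi
        by_contra hcon
        have h2 := (hx _ hcon).2
        omega
      rw [this]
      simp
  rw [← h1, ← Finset.sum_congr rfl h2]
  exact poly_ineq K hK _

end Pool.Agent.Q31.RG
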