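import Mathlib

set_option autoImplicit false

/-! # Averages of Fejér kernels over dyadic scales -/

open Finset Polynomial

namespace Pool.Agent.Q31.RG

/-- the geometric sum -/
noncomputable def Dz (r : ℕ) (z : ℂ) : ℂ := ∑ i ∈ range r, z ^ i

lemma Dz_le {z : ℂ} (hz : ‖z‖ = 1) (r : ℕ) : ‖Dz r z‖ ≤ r := by
  unfold Dz
  refine (norm_sum_le _ _).trans (le_of_eq ?_)
  simp [hz]

lemma Dz_mul (z : ℂ) (r : ℕ) : Dz r z * (1 - z) = 1 - z ^ r := geom_sum_mul_neg z r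

lemma one_sub_pow_le {z : ℂ} (hz : ‖z‖ = 1) (r : ℕ) : ‖1 - z ^ r‖ ≤ 2 := by
  refine (norm_sub_le _ _).trans (le_of_eq ?_)
  rw [norm_one, norm_pow, hz, one_pow]
  norm_num

lemma Dz_mul_le {z : ℂ} (hz : ‖z‖ = 1) (r : ℕ) : ‖Dz r z‖ * ‖1 - z‖ ≤ 2 := by
  rw [← norm_mul, Dz_mul]
  exact one_sub_pow_le hz r

/-- the Fejér kernels at dyadic scales -/
noncomputable def qk (k : ℕ) (z : ℂ) : ℝ := ‖Dz (2 ^ k) z‖ ^ 2 / 2 ^ k

lemma qk_nonneg (k : ℕ) (z : ℂ) : 0 ≤ qk k z := by unfold qk; positivity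

lemma qk_le1 {z : ℂ} (hz : ‖z‖ = 1) (k : ℕ) : qk k z ≤ 2 ^ k := by
  unfold qk
  have h1 := Dz_le hz (2 ^ k)
  push_cast at h1
  have h2 : (0 : ℝ) < 2 ^ k := by positivity
  rw [div_le_iff₀ h2]
  have h0 := norm_nonneg (Dz (2 ^ k) z)
  nlinarith

lemma qk_le2 {z : ℂ} (hz : ‖z‖ = 1) (hu : 0 < ‖1 - z‖) (k : ℕ) :
    qk k z ≤ 4 / (2 ^ k * ‖1 - z‖ ^ 2) := by
  unfold qk
  have h1 := Dz_mul_le hz (2 ^ k)
  have h2 : (0 : ℝ) < 2 ^ k := by positivity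
  have h0 := norm_nonneg (Dz (2 ^ k) z)
  rw [div_le_div_iff₀ h2 (by positivity)]
  have h3 : (‖Dz (2 ^ k) z‖ * ‖1 - z‖) ^ 2 ≤ 4 := by
    have : 0 ≤ ‖Dz (2 ^ k) z‖ * ‖1 - z‖ := by positivity
    nlinarith
  calc ‖Dz (2 ^ k) z‖ ^ 2 * (2 ^ k * ‖1 - z‖ ^ 2) = (‖Dz (2 ^ k) z‖ * ‖1 - z‖) ^ 2 * 2 ^ k := by ring
    _ ≤ 4 * 2 ^ k := by gcongr

/-- sum over the scales -/
noncomputable def SK (K : ℕ) (z : ℂ) : ℝ := ∑ k ∈ range K, qk (k + 1) z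

lemma SK_nonneg (K : ℕ) (z : ℂ) : 0 ≤ SK K z := Finset.sum_nonneg fun _ _ => qk_nonneg _ _

lemma SK_le1 {z : ℂ} (hz : ‖z‖ = 1) (K : ℕ) : SK K z ≤ 2 ^ (K + 1) - 2 := by
  induction K with
  | zero => simp [SK]
  | succ K ih =>
    have h1 : SK (K + 1) z = SK K z + qk (K + 1) z := by
      unfold SK; rw [Finset.sum_range_succ]
    have h2 := qk_le1 hz (K + 1)
    rw [h1]
    have h3 : (2 : ℝ) ^ (K + 1 + 1) = 2 * 2 ^ (K + 1) := by ring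
    rw [h3]
    linarith

lemma SK_le2 {z : ℂ} (hz : ‖z‖ = 1) (hu : 0 < ‖1 - z‖) (K : ℕ)
    (hK : 1 / ‖1 - z‖ ≤ 2 ^ (K + 1)) :
    SK K z ≤ 10 / ‖1 - z‖ - 4 / (2 ^ K * ‖1 - z‖ ^ 2) := by
  obtain ⟨u, hu'⟩ : ∃ u : ℝ, u = ‖1 - z‖ := ⟨_, rfl⟩
  have key : ∀ K : ℕ, ∀ w : ℝ, w = 1 / ‖1 - z‖ → w ≤ 2 ^ (K + 1) →
      2 * w ≤ 10 * w - 4 * w ^ 2 / 2 ^ K := by
    intro K w hw h
    have hw0 : 0 < w := by rw [hw]; positivity
    have h2 : (0 : ℝ) < 2 ^ K := by positivity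
    have h3 : 4 * w ^ 2 / 2 ^ K ≤ 8 * w := by
      rw [div_le_iff₀ h2]
      have : (2 : ℝ) ^ (K + 1) = 2 * 2 ^ K := by ring
      rw [this] at h
      nlinarith
    linarith
  have conv : ∀ K : ℕ, 10 / ‖1 - z‖ - 4 / (2 ^ K * ‖1 - z‖ ^ 2) =
      10 * (1 / ‖1 - z‖) - 4 * (1 / ‖1 - z‖) ^ 2 / 2 ^ K := by
    intro K
    field_simp
  induction K with
  | zero =>
    have h1 := key 0 _ rfl hK
    rw [conv]
    have h2 : 0 < 1 / ‖1 - z‖ := by positivity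
    have : SK 0 z = 0 := by simp [SK]
    rw [this]
    linarith
  | succ K ih =>
    have h1 : SK (K + 1) z = SK K z + qk (K + 1) z := by
      unfold SK; rw [Finset.sum_range_succ]
    rcases le_or_gt (1 / ‖1 - z‖) (2 ^ (K + 1)) with h | h
    · have h2 := ih h
      have h3 := qk_le2 hz hu (K + 1)
      rw [h1]
      have h4 : 4 / (2 ^ K * ‖1 - z‖ ^ 2) = 4 / (2 ^ (K + 1) * ‖1 - z‖ ^ 2) +
          4 / (2 ^ (K + 1) * ‖1 - z‖ ^ 2) := by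
        field_simp
        ring
      linarith
    · have h2 := SK_le1 hz (K + 1)
      have h3 := key (K + 1) _ rfl hK
      rw [conv]
      have h4 : (2 : ℝ) ^ (K + 1 + 1) = 2 * 2 ^ (K + 1) := by ring
      rw [h4] at h2
      linarith

/-- the block sums -/
noncomputable def AR (R : ℕ) (z : ℂ) : ℝ := ∑ r ∈ range R, ‖Dz (r + 1) z‖ ^ 2

lemma AR_low1 {z : ℂ} (hz : ‖z‖ = 1) (hu : 0 < ‖1 - z‖) (R : ℕ) (h : 4 ≤ R * ‖1 - z‖) :
    R / ‖1 - z‖ ^ 2 ≤ AR R z := by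
  have h1 : ∀ r : ℕ, ‖Dz r z‖ ^ 2 * ‖1 - z‖ ^ 2 = 2 - 2 * (z ^ r).re := by
    intro r
    rw [← mul_pow, ← norm_mul, Dz_mul, ← Complex.normSq_eq_norm_sq]
    have h2 : Complex.normSq (z ^ r) = 1 := by
      rw [Complex.normSq_eq_norm_sq, norm_pow, hz]; simp
    rw [Complex.normSq_sub, h2, one_mul, Complex.conj_re, Complex.normSq_one]
    ring
  have h2 : AR R z * ‖1 - z‖ ^ 2 = 2 * R - 2 * (z * Dz R z).re := by
    unfold AR
    rw [Finset.sum_mul, Finset.sum_congr rfl fun r _ => h1 (r + 1), Finset.sum_sub_distrib]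
    rw [Finset.sum_const, card_range, nsmul_eq_mul, ← Finset.mul_sum, ← Complex.re_sum]
    have : z * Dz R z = ∑ r ∈ range R, z ^ (r + 1) := by
      unfold Dz
      rw [Finset.mul_sum]
      exact Finset.sum_congr rfl fun r _ => by ring
    rw [this]
    ring
  have h3 : (z * Dz R z).re ≤ ‖Dz R z‖ := by
    refine (Complex.re_le_norm _).trans ?_
    rw [norm_mul, hz, one_mul]
  have h4 := Dz_mul_le hz R
  have h5 : ‖Dz R z‖ ≤ R / 2 := by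
    by_contra hcon
    push Not at hcon
    nlinarith
  rw [div_le_iff₀ (by positivity), h2]
  linarith

lemma one_sub_pow_le' {z : ℂ} (hz : ‖z‖ = 1) (r : ℕ) : ‖1 - z ^ r‖ ≤ r * ‖1 - z‖ := by
  rw [← Dz_mul, norm_mul]
  exact mul_le_mul_of_nonneg_right (Dz_le hz r) (norm_nonneg _)

lemma Dz_low {z : ℂ} (hz : ‖z‖ = 1) (r : ℕ) (h : r * ‖1 - z‖ ≤ 1) : (r : ℝ) / 2 ≤ ‖Dz r z‖ := by
  have h1 : (r : ℂ) - Dz r z = ∑ i ∈ range r, (1 - z ^ i) := by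
    unfold Dz
    rw [Finset.sum_sub_distrib]
    simp
  have h2 : ‖(r : ℂ) - Dz r z‖ ≤ ∑ i ∈ range r, (i : ℝ) * ‖1 - z‖ := by
    rw [h1]
    exact (norm_sum_le _ _).trans (Finset.sum_le_sum fun i _ => one_sub_pow_le' hz i)
  have h3 : ∑ i ∈ range r, (i : ℝ) * ‖1 - z‖ ≤ r / 2 := by
    rw [← Finset.sum_mul]
    have h4 : ∑ i ∈ range r, (i : ℝ) ≤ r * r / 2 := by
      have h5 : ∀ r : ℕ, ∑ i ∈ range r, (i : ℝ) ≤ r * r / 2 := by
        intro r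
        induction r with
        | zero => simp
        | succ r ih =>
          rw [Finset.sum_range_succ]
          push_cast
          nlinarith
      exact h5 r
    have h6 : 0 ≤ ‖1 - z‖ := norm_nonneg _
    have h7 : (0 : ℝ) ≤ r := Nat.cast_nonneg r
    nlinarith
  have h4 : (r : ℝ) ≤ ‖(r : ℂ) - Dz r z‖ + ‖Dz r z‖ := by
    have h5 := norm_add_le ((r : ℂ) - Dz r z) (Dz r z)
    rw [sub_add_cancel] at h5
    simpa using h5
  linarith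

lemma AR_low2 {z : ℂ} (hz : ‖z‖ = 1) (Q : ℕ) (h : Q * ‖1 - z‖ ≤ 1) :
    (Q : ℝ) ^ 3 / 12 ≤ AR (4 * Q) z := by
  have h1 : ∑ r ∈ range Q, ‖Dz (r + 1) z‖ ^ 2 ≤ AR (4 * Q) z := by
    unfold AR
    refine Finset.sum_le_sum_of_subset_of_nonneg ?_ fun _ _ _ => sq_nonneg _
    intro r hr
    rw [Finset.mem_range] at *
    omega
  have h2 : ∑ r ∈ range Q, ((r : ℝ) + 1) ^ 2 / 4 ≤ ∑ r ∈ range Q, ‖Dz (r + 1) z‖ ^ 2 := by
    refine Finset.sum_le_sum fun r hr => ?_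
    rw [Finset.mem_range] at hr
    have h3 : ((r + 1 : ℕ) : ℝ) * ‖1 - z‖ ≤ 1 := by
      refine le_trans ?_ h
      have : ((r + 1 : ℕ) : ℝ) ≤ Q := by exact_mod_cast hr
      exact mul_le_mul_of_nonneg_right this (norm_nonneg _)
    have h4 := Dz_low hz (r + 1) h3
    push_cast at h4
    have h5 : (0 : ℝ) ≤ r := Nat.cast_nonneg r
    calc ((r : ℝ) + 1) ^ 2 / 4 = (((r : ℝ) + 1) / 2) ^ 2 := by ring
      _ ≤ _ := pow_le_pow_left₀ (by positivity) h4 2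
  have h3 : ∀ Q : ℕ, (Q : ℝ) ^ 3 / 12 ≤ ∑ r ∈ range Q, ((r : ℝ) + 1) ^ 2 / 4 := by
    intro Q
    induction Q with
    | zero => simp
    | succ Q ih =>
      rw [Finset.sum_range_succ]
      push_cast
      have : (0 : ℝ) ≤ Q := Nat.cast_nonneg Q
      nlinarith
  exact (h3 Q).trans (h2.trans h1)

/-- **the pointwise inequality** -/
theorem point {z : ℂ} (hz : ‖z‖ = 1) (K : ℕ) (hK : 2 ≤ K) :
    SK K z ^ 2 ≤ 3072 / 2 ^ K * AR (2 ^ K) z := by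
  obtain ⟨k, rfl⟩ := Nat.exists_eq_add_of_le hK
  have hR : (2 : ℕ) ^ (2 + k) = 4 * 2 ^ k := by ring
  have hRr : (2 : ℝ) ^ (2 + k) = 4 * 2 ^ k := by ring
  have hp : (0 : ℝ) < 2 ^ k := by positivity
  rcases le_or_gt 4 ((2 : ℝ) ^ (2 + k) * ‖1 - z‖) with h | h
  · have hu : 0 < ‖1 - z‖ := by
      by_contra hcon
      have : ‖1 - z‖ = 0 := le_antisymm (not_lt.mp hcon) (norm_nonneg _)
      rw [this, mul_zero] at h
      norm_num at h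
    have h1 : SK (2 + k) z ≤ 10 / ‖1 - z‖ := by
      have h2 := SK_le2 hz hu (2 + k) (by
        rw [div_le_iff₀ hu]
        have h3 : (2 : ℝ) ^ (2 + k + 1) = 2 * 2 ^ (2 + k) := by ring
        rw [h3]
        nlinarith)
      have h3 : 0 ≤ 4 / (2 ^ (2 + k) * ‖1 - z‖ ^ 2) := by positivity
      linarith
    have h2 := AR_low1 hz hu (2 ^ (2 + k)) (by push_cast; exact h)
    push_cast at h2
    have h3 := SK_nonneg (2 + k) z
    calc SK (2 + k) z ^ 2 ≤ (10 / ‖1 - z‖) ^ 2 := pow_le_pow_left₀ h3 h1 2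
      _ = 100 / 2 ^ (2 + k) * (2 ^ (2 + k) / ‖1 - z‖ ^ 2) := by field_simp; ring
      _ ≤ 3072 / 2 ^ (2 + k) * (2 ^ (2 + k) / ‖1 - z‖ ^ 2) := by gcongr; norm_num
      _ ≤ _ := by gcongr
  · have h1 : SK (2 + k) z ≤ 2 * 2 ^ (2 + k) := by
      have := SK_le1 hz (2 + k)
      have h3 : (2 : ℝ) ^ (2 + k + 1) = 2 * 2 ^ (2 + k) := by ring
      rw [h3] at this
      linarith
    have h2 := AR_low2 hz (2 ^ k) (by
      push_cast
      rw [hRr] at h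
      linarith)
    rw [← hR] at h2
    push_cast at h2
    have h3 := SK_nonneg (2 + k) z
    calc SK (2 + k) z ^ 2 ≤ (2 * 2 ^ (2 + k)) ^ 2 := pow_le_pow_left₀ h3 h1 2
      _ = 3072 / 2 ^ (2 + k) * ((2 ^ k) ^ 3 / 12) := by rw [hRr]; field_simp; ring
      _ ≤ _ := by gcongr

end Pool.Agent.Q31.RG
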