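import Pool.Agent.Q31.RG.Disc

set_option autoImplicit false

/-! # The interpolation inequality for functions on the line -/

open Finset MeasureTheory Set intervalIntegral

namespace Pool.Agent.Q31.RG

/-- measurable and locally bounded -/
def LB (f : ℝ → ℝ) : Prop := Measurable f ∧ ∀ A B : ℝ, ∃ M : ℝ, ∀ t ∈ Set.Icc A B, |f t| ≤ M

lemma LB.shift {f : ℝ → ℝ} (hf : LB f) (c : ℝ) : LB fun t => f (t + c) := by
  refine ⟨hf.1.comp (measurable_id.add_const c), fun A B => ?_⟩
  obtain ⟨M, hM⟩ := hf.2 (A + c) (B + c)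
  exact ⟨M, fun t ht => hM _ ⟨by linarith [ht.1], by linarith [ht.2]⟩⟩

lemma LB.sub {f g : ℝ → ℝ} (hf : LB f) (hg : LB g) : LB fun t => f t - g t := by
  refine ⟨hf.1.sub hg.1, fun A B => ?_⟩
  obtain ⟨M, hM⟩ := hf.2 A B
  obtain ⟨M', hM'⟩ := hg.2 A B
  exact ⟨M + M', fun t ht => (abs_sub _ _).trans (add_le_add (hM t ht) (hM' t ht))⟩

lemma LB.const_mul {f : ℝ → ℝ} (hf : LB f) (c : ℝ) : LB fun t => c * f t := by
  refine ⟨hf.1.const_mul c, fun A B => ?_⟩
  obtain ⟨M, hM⟩ := hf.2 A B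
  refine ⟨|c| * M, fun t ht => ?_⟩
  rw [abs_mul]
  exact mul_le_mul_of_nonneg_left (hM t ht) (abs_nonneg c)

lemma LB.sq {f : ℝ → ℝ} (hf : LB f) : LB fun t => f t ^ 2 := by
  refine ⟨hf.1.pow_const 2, fun A B => ?_⟩
  obtain ⟨M, hM⟩ := hf.2 A B
  refine ⟨M ^ 2, fun t ht => ?_⟩
  rw [abs_pow]
  exact pow_le_pow_left₀ (abs_nonneg _) (hM t ht) 2

lemma LB.sum {ι : Type*} {s : Finset ι} {f : ι → ℝ → ℝ} (hf : ∀ i ∈ s, LB (f i)) :
    LB fun t => ∑ i ∈ s, f i t := by
  classical
  induction s using Finset.induction_on with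
  | empty => exact ⟨by simp, fun A B => ⟨0, by simp⟩⟩
  | insert i s hi ih =>
    have h1 := hf i (Finset.mem_insert_self i s)
    have h2 := ih fun j hj => hf j (Finset.mem_insert_of_mem hj)
    simp only [Finset.sum_insert hi]
    refine ⟨h1.1.add h2.1, fun A B => ?_⟩
    obtain ⟨M, hM⟩ := h1.2 A B
    obtain ⟨M', hM'⟩ := h2.2 A B
    exact ⟨M + M', fun t ht => (abs_add_le _ _).trans (add_le_add (hM t ht) (hM' t ht))⟩

lemma LB.ii {f : ℝ → ℝ} (hf : LB f) (a b : ℝ) : IntervalIntegrable f volume a b := by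
  obtain ⟨M, hM⟩ := hf.2 (min a b) (max a b)
  rw [intervalIntegrable_iff]
  refine Measure.integrableOn_of_bounded (M := M) ?_ hf.1.aestronglyMeasurable ?_
  · rw [Set.uIoc, Real.volume_Ioc]
    exact ENNReal.ofReal_ne_top
  · refine (ae_restrict_iff' measurableSet_uIoc).2 (Filter.Eventually.of_forall fun t ht => ?_)
    rw [Real.norm_eq_abs]
    exact hM t ⟨ht.1.le, ht.2⟩

lemma unfold_sum {f : ℝ → ℝ} (hf : LB f) (a h : ℝ) (M : ℕ) :
    ∑ n ∈ range M, ∫ τ in (0 : ℝ)..h, f (a + τ + n * h) = ∫ t in a..(a + M * h), f t := by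
  induction M with
  | zero => simp
  | succ M ih =>
    rw [Finset.sum_range_succ, ih]
    have h1 : ∫ τ in (0 : ℝ)..h, f (a + τ + M * h) =
        ∫ t in (a + M * h)..(a + (M + 1 : ℕ) * h), f t := by
      have h2 : (fun τ => f (a + τ + M * h)) = fun τ => f (τ + (a + M * h)) := by
        funext τ; congr 1; ring
      rw [h2, intervalIntegral.integral_comp_add_right (fun t => f t)]
      congr 1
      · ring
      · push_cast; ring
    rw [h1, integral_add_adjacent_intervals (hf.ii _ _) (hf.ii _ _)]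

/-- clipping -/
def clip (N : ℕ) (n : ℤ) : ℕ := min N n.toNat

/-- the increments of a function along an arithmetic progression, cut off -/
noncomputable def xs (H : ℝ → ℝ) (a h : ℝ) (N : ℕ) (n : ℤ) : ℝ :=
  H (a + clip N (n + 1) * h) - H (a + clip N n * h)

lemma xs_supp (H : ℝ → ℝ) (a h : ℝ) (N : ℕ) (n : ℤ) (hn : xs H a h N n ≠ 0) : 0 ≤ n ∧ n < N := by
  by_contra hcon
  apply hn
  have : clip N (n + 1) = clip N n := by unfold clip; omega
  unfold xs
  rw [this, sub_self]

lemma xs_eq (H : ℝ → ℝ) (a h : ℝ) (N : ℕ) (n : ℤ) (h0 : 0 ≤ n) (hN : n < N) :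
    xs H a h N n = H (a + n * h + h) - H (a + n * h) := by
  unfold xs
  have h1 : ((clip N (n + 1) : ℕ) : ℝ) = n + 1 := by
    have : ((clip N (n + 1) : ℕ) : ℤ) = n + 1 := by unfold clip; omega
    exact_mod_cast this
  have h2 : ((clip N n : ℕ) : ℝ) = n := by
    have : ((clip N n : ℕ) : ℤ) = n := by unfold clip; omega
    exact_mod_cast this
  rw [h1, h2]
  congr 2
  ring

lemma xs_sum (H : ℝ → ℝ) (a h : ℝ) (N : ℕ) (m : ℤ) (r : ℕ) :
    ∑ i ∈ range r, xs H a h N (m - i) =
      H (a + clip N (m + 1) * h) - H (a + clip N (m + 1 - r) * h) := by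
  induction r with
  | zero => simp
  | succ r ih =>
    rw [Finset.sum_range_succ, ih]
    unfold xs
    have h1 : m - (r : ℤ) + 1 = m + 1 - r := by ring
    have h2 : m + 1 - ((r + 1 : ℕ) : ℤ) = m - r := by push_cast; ring
    rw [h1, h2]
    ring

/-- **the interpolation inequality on the line** -/
theorem win (H : ℝ → ℝ) (hH : LB H) (K : ℕ) (hK : 2 ≤ K) (A B h M : ℝ) (hh : 0 < h) (hAB : A ≤ B)
    (hM0 : 0 ≤ M)
    (hM : ∀ s t : ℝ, A - 2 ^ K * h ≤ s → s ≤ t → t ≤ B + 3 * 2 ^ K * h → t - s ≤ 2 ^ K * h →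
      |H t - H s| ≤ M) :
    ∫ t in A..B, (∑ j ∈ Ioo (-(2 : ℤ) ^ K) (2 ^ K), c K j * (H (t + (j + 1) * h) - H (t + j * h))) ^ 2
      ≤ 3072 / (K ^ 2 * 2 ^ K) * ∑ r ∈ range (2 ^ K),
        (∫ t in (A - 2 ^ K * h)..(B + 2 * 2 ^ K * h), (H (t + (r + 1) * h) - H t) ^ 2) +
        3072 / K ^ 2 * (2 * 2 ^ K * h * M ^ 2) := by
  classical
  obtain ⟨R, hR⟩ : ∃ R : ℕ, R = 2 ^ K := ⟨_, rfl⟩
  have hRr : (2 : ℝ) ^ K = R := by rw [hR]; push_cast; rfl
  have hRz : (2 : ℤ) ^ K = R := by rw [hR]; push_cast; rfl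
  have hR1 : 1 ≤ R := by rw [hR]; exact Nat.one_le_two_pow
  have hR1r : (1 : ℝ) ≤ R := by exact_mod_cast hR1
  have hK0 : (0 : ℝ) < K := by
    have : 0 < K := by omega
    exact_mod_cast this
  obtain ⟨Q, hQ⟩ : ∃ Q : ℕ, Q = ⌈(B - A) / h⌉₊ := ⟨_, rfl⟩
  obtain ⟨N, hN⟩ : ∃ N : ℕ, N = 2 * R + Q := ⟨_, rfl⟩
  have hQ1 : B - A ≤ Q * h := by
    have := Nat.le_ceil ((B - A) / h)
    rw [← hQ, div_le_iff₀ hh] at this
    exact this
  have hQ2 : (Q : ℝ) * h ≤ B - A + h := by
    have := Nat.ceil_lt_add_one (div_nonneg (sub_nonneg.2 hAB) hh.le)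
    rw [← hQ, ← sub_lt_iff_lt_add, lt_div_iff₀ hh] at this
    linarith
  have hd := fun τ : ℝ => disc (x := xs H (A - R * h + τ) h N) (N := N) K hK
    (xs_supp H (A - R * h + τ) h N)
  rw [hRr] at hM ⊢
  rw [hRz]
  simp only [hRz, hRr, ← hR] at hd
  -- the functions
  obtain ⟨Ψ, hΨ⟩ : ∃ Ψ : ℝ → ℝ, Ψ = fun t => (∑ j ∈ Ioo (-(R : ℤ)) R,
    c K j * (H (t + (j + 1) * h) - H (t + j * h))) ^ 2 := ⟨_, rfl⟩
  obtain ⟨Φ, hΦ⟩ : ∃ Φ : ℕ → ℝ → ℝ, Φ = fun (r : ℕ) (t : ℝ) =>
    (H (t + ((r : ℝ) + 1) * h) - H t) ^ 2 := ⟨_, rfl⟩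
  have lbΨ : LB Ψ := by
    rw [hΨ]
    exact LB.sq (LB.sum fun j _ => ((hH.shift _).sub (hH.shift _)).const_mul _)
  have lbΦ : ∀ r, LB (Φ r) := fun r => by
    rw [hΦ]
    exact LB.sq ((hH.shift _).sub hH)
  have hΨ0 : ∀ t, 0 ≤ Ψ t := fun t => by rw [hΨ]; exact sq_nonneg _
  have hΦ0 : ∀ r t, 0 ≤ Φ r t := fun r t => by rw [hΦ]; exact sq_nonneg _
  -- pointwise inequality
  have hpt : ∀ τ : ℝ, 0 ≤ τ → τ ≤ h →
      ∑ n ∈ range (R + Q - R), Ψ (A + τ + n * h) ≤
      3072 / (K ^ 2 * R) * ∑ r ∈ range R, (∑ n ∈ range N, Φ r (A - R * h + τ + n * h) +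
        2 * R * M ^ 2) := by
    intro τ hτ0 hτh
    have h1 : ∑ n ∈ range (R + Q - R), Ψ (A + τ + n * h) ≤
        ∑ m ∈ range (N + 2 * R), (∑ j ∈ Ioo (-(R : ℤ)) R,
          c K j * xs H (A - R * h + τ) h N ((m : ℤ) - (R - 1) + j)) ^ 2 := by
      rw [Nat.add_sub_cancel_left]
      have h2 : ∑ n ∈ range Q, Ψ (A + τ + n * h) = ∑ m ∈ (range Q).map (addRightEmbedding (2 * R - 1)),
          (∑ j ∈ Ioo (-(R : ℤ)) R,
          c K j * xs H (A - R * h + τ) h N ((m : ℤ) - (R - 1) + j)) ^ 2 := by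
        rw [Finset.sum_map]
        refine Finset.sum_congr rfl fun n hn => ?_
        rw [Finset.mem_range] at hn
        rw [hΨ]
        simp only [addRightEmbedding_apply]
        congr 1
        refine Finset.sum_congr rfl fun j hj => ?_
        rw [Finset.mem_Ioo] at hj
        have h3 : ((n + (2 * R - 1) : ℕ) : ℤ) - (R - 1) + j = n + R + j := by omega
        rw [h3, xs_eq]
        · push_cast
          congr 3
          · ring
          · ring
        · omega
        · rw [hN]; push_cast; omega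
      rw [h2]
      refine Finset.sum_le_sum_of_subset_of_nonneg ?_ fun _ _ _ => sq_nonneg _
      intro m hm
      rw [Finset.mem_map] at hm
      obtain ⟨n, hn, rfl⟩ := hm
      rw [Finset.mem_range] at *
      simp only [addRightEmbedding_apply]
      omega
    refine h1.trans ((hd τ).trans ?_)
    refine mul_le_mul_of_nonneg_left ?_ (by positivity)
    refine Finset.sum_le_sum fun r hr => ?_
    rw [Finset.mem_range] at hr
    have hval : ∀ m ∈ range (N + R), (∑ i ∈ range (r + 1), xs H (A - R * h + τ) h N ((m : ℤ) - i)) ^ 2 ≤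
        (if r ≤ m ∧ m < N then Φ r (A - R * h + τ + (m - r : ℕ) * h) else M ^ 2) := by
      intro m hm
      rw [Finset.mem_range] at hm
      rw [xs_sum]
      by_cases hc : r ≤ m ∧ m < N
      · rw [if_pos hc, hΦ]
        have e1 : clip N ((m : ℤ) + 1) = m + 1 := by unfold clip; omega
        have e2 : clip N ((m : ℤ) + 1 - (r + 1 : ℕ)) = m - r := by unfold clip; omega
        rw [e1, e2]
        refine le_of_eq ?_
        simp only
        congr 3
        push_cast [Nat.cast_sub hc.1]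
        ring
      · rw [if_neg hc]
        have e1 : clip N ((m : ℤ) + 1 - (r + 1 : ℕ)) ≤ clip N ((m : ℤ) + 1) := by unfold clip; omega
        have e2 : clip N ((m : ℤ) + 1) ≤ clip N ((m : ℤ) + 1 - (r + 1 : ℕ)) + R := by
          unfold clip; omega
        have e3 : clip N ((m : ℤ) + 1) ≤ N := by unfold clip; omega
        have e1' : ((clip N ((m : ℤ) + 1 - (r + 1 : ℕ)) : ℕ) : ℝ) ≤ (clip N ((m : ℤ) + 1) : ℕ) := by
          exact_mod_cast e1
        have e2' : ((clip N ((m : ℤ) + 1) : ℕ) : ℝ) ≤ (clip N ((m : ℤ) + 1 - (r + 1 : ℕ)) : ℕ) + R := by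
          exact_mod_cast e2
        have e3' : ((clip N ((m : ℤ) + 1) : ℕ) : ℝ) ≤ N := by exact_mod_cast e3
        have e4 : (0 : ℝ) ≤ (clip N ((m : ℤ) + 1 - (r + 1 : ℕ)) : ℕ) := Nat.cast_nonneg _
        have hNr : (N : ℝ) * h = 2 * R * h + Q * h := by rw [hN]; push_cast; ring
        have h3 := hM (A - R * h + τ + (clip N ((m : ℤ) + 1 - (r + 1 : ℕ)) : ℕ) * h)
          (A - R * h + τ + (clip N ((m : ℤ) + 1) : ℕ) * h)
          (by nlinarith) (by nlinarith) (by nlinarith) (by nlinarith)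
        rw [← sq_abs]
        exact pow_le_pow_left₀ (abs_nonneg _) h3 2
    refine (Finset.sum_le_sum hval).trans ?_
    rw [← Finset.sum_filter_add_sum_filter_not (range (N + R)) (fun m => r ≤ m ∧ m < N)]
    refine add_le_add ?_ ?_
    · rw [Finset.sum_congr rfl (g := fun m : ℕ => Φ r (A - R * h + τ + (m - r : ℕ) * h))
        (fun m hm => if_pos (Finset.mem_filter.1 hm).2)]
      have h3 : ∑ m ∈ (range (N + R)).filter (fun m => r ≤ m ∧ m < N),
          Φ r (A - R * h + τ + (m - r : ℕ) * h) =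
          ∑ n ∈ ((range (N + R)).filter (fun m => r ≤ m ∧ m < N)).image (fun m => m - r),
            Φ r (A - R * h + τ + n * h) := by
        rw [Finset.sum_image]
        intro a ha b hb hab
        have ha' := (Finset.mem_filter.1 (Finset.mem_coe.1 ha)).2
        have hb' := (Finset.mem_filter.1 (Finset.mem_coe.1 hb)).2
        simp only at hab
        omega
      rw [h3]
      refine Finset.sum_le_sum_of_subset_of_nonneg ?_ fun _ _ _ => hΦ0 _ _
      intro n hn
      rw [Finset.mem_image] at hn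
      obtain ⟨m, hm, rfl⟩ := hn
      have := (Finset.mem_filter.1 hm).2
      rw [Finset.mem_range]
      omega
    · rw [Finset.sum_congr rfl (g := fun _ : ℕ => M ^ 2)
        (fun m hm => if_neg (Finset.mem_filter.1 hm).2), Finset.sum_const, nsmul_eq_mul]
      refine mul_le_mul_of_nonneg_right ?_ (sq_nonneg M)
      have h3 : ((range (N + R)).filter (fun m => ¬ (r ≤ m ∧ m < N))).card ≤ 2 * R := by
        have h4 : (range (N + R)).filter (fun m => ¬ (r ≤ m ∧ m < N)) ⊆ range R ∪ Finset.Ico N (N + R) := by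
          intro m hm
          rw [Finset.mem_filter, Finset.mem_range] at hm
          rw [Finset.mem_union, Finset.mem_range, Finset.mem_Ico]
          omega
        refine (Finset.card_le_card h4).trans ((Finset.card_union_le _ _).trans ?_)
        rw [Finset.card_range, Nat.card_Ico]
        omega
      exact_mod_cast h3
  -- integrate over τ
  have hint : ∫ τ in (0 : ℝ)..h, ∑ n ∈ range Q, Ψ (A + τ + n * h) ≤
      ∫ τ in (0 : ℝ)..h, (3072 : ℝ) / ((K : ℝ) ^ 2 * (R : ℝ)) * ∑ r ∈ range R,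
        (∑ n ∈ range N, Φ r (A - R * h + τ + n * h) + 2 * R * M ^ 2) := by
    have lb1 : ∀ (f : ℝ → ℝ) (_ : LB f) (a b : ℝ), LB fun τ => f (a + τ + b) := by
      intro f hf a b
      have := hf.shift (a + b)
      have e : (fun τ => f (a + τ + b)) = fun t => f (t + (a + b)) := by
        funext τ; congr 1; ring
      rw [e]
      exact this
    refine intervalIntegral.integral_mono_on hh.le ?_ ?_ ?_
    · exact (LB.sum fun n _ => lb1 Ψ lbΨ _ _).ii _ _
    · refine LB.ii ?_ _ _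
      refine LB.const_mul (LB.sum fun r _ => ?_) _
      have h5 : LB fun τ => ∑ n ∈ range N, Φ r (A - R * h + τ + n * h) :=
        LB.sum fun n _ => lb1 (Φ r) (lbΦ r) _ _
      have h6 : LB fun _ : ℝ => -(2 * (R : ℝ) * M ^ 2) :=
        ⟨measurable_const, fun _ _ => ⟨_, fun _ _ => le_rfl⟩⟩
      have := h5.sub h6
      simpa using this
    · intro τ hτ
      have := hpt τ hτ.1 hτ.2
      rw [Nat.add_sub_cancel_left] at this
      exact this
  have hlb1 : ∀ (f : ℝ → ℝ) (_ : LB f) (a b : ℝ),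
      IntervalIntegrable (fun τ => f (a + τ + b)) volume 0 h := by
    intro f hf a b
    have := (hf.shift (a + b)).ii 0 h
    have e : (fun τ => f (a + τ + b)) = fun t => f (t + (a + b)) := by
      funext τ; congr 1; ring
    rw [e]
    exact this
  rw [intervalIntegral.integral_finsetSum (fun n _ => hlb1 Ψ lbΨ _ _), unfold_sum lbΨ,
    intervalIntegral.integral_const_mul] at hint
  have h7 : ∫ τ in (0 : ℝ)..h, ∑ r ∈ range R,
        (∑ n ∈ range N, Φ r (A - R * h + τ + n * h) + 2 * R * M ^ 2) =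
      ∑ r ∈ range R, ((∫ t in (A - R * h)..(A - R * h + N * h), Φ r t) + h * (2 * R * M ^ 2)) := by
    rw [intervalIntegral.integral_finsetSum]
    · refine Finset.sum_congr rfl fun r _ => ?_
      rw [intervalIntegral.integral_add, intervalIntegral.integral_finsetSum
        (fun n _ => hlb1 (Φ r) (lbΦ r) _ _), unfold_sum (lbΦ r)]
      · simp
        ring
      · have h5 : LB fun τ => ∑ n ∈ range N, Φ r (τ + (A - R * h + n * h)) :=
          LB.sum fun n _ => (lbΦ r).shift _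
        have h6 := h5.ii 0 h
        refine h6.congr ?_
        intro τ _
        refine Finset.sum_congr rfl fun n _ => ?_
        congr 1
        ring
      · exact intervalIntegrable_const
    · intro r _
      refine IntervalIntegrable.add ?_ intervalIntegrable_const
      have h5 : LB fun τ => ∑ n ∈ range N, Φ r (τ + (A - R * h + n * h)) :=
        LB.sum fun n _ => (lbΦ r).shift _
      have h6 := h5.ii 0 h
      refine h6.congr ?_
      intro τ _
      refine Finset.sum_congr rfl fun n _ => ?_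
      congr 1
      ring
  rw [h7] at hint
  have h8 : ∫ t in A..B, Ψ t ≤ ∫ t in A..(A + Q * h), Ψ t := by
    refine intervalIntegral.integral_mono_interval le_rfl hAB (by linarith)
      (Filter.Eventually.of_forall hΨ0) (lbΨ.ii _ _)
  have h9 : ∀ r ∈ range R, (∫ t in (A - R * h)..(A - R * h + N * h), Φ r t) + h * (2 * R * M ^ 2) ≤
      (∫ t in (A - R * h)..(B + 2 * R * h), Φ r t) + h * (2 * R * M ^ 2) := by
    intro r _
    have hNr : (N : ℝ) * h = 2 * R * h + Q * h := by rw [hN]; push_cast; ring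
    have hRh : h ≤ R * h := by nlinarith
    have hN0 : (0 : ℝ) ≤ N * h := by positivity
    have := intervalIntegral.integral_mono_interval (f := Φ r) (μ := volume)
      (a := A - R * h) (b := A - R * h + N * h) (c := A - R * h) (d := B + 2 * R * h) le_rfl
      (by linarith) (by linarith) (Filter.Eventually.of_forall (hΦ0 r)) ((lbΦ r).ii _ _)
    linarith
  have h10 := Finset.sum_le_sum h9
  rw [Finset.sum_add_distrib (f := fun r => ∫ t in (A - R * h)..(B + 2 * R * h), Φ r t)] at h10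
  rw [Finset.sum_const, Finset.card_range, nsmul_eq_mul] at h10
  have h11 := mul_le_mul_of_nonneg_left h10 (by positivity : (0 : ℝ) ≤ 3072 / (K ^ 2 * R))
  have hfin := h8.trans (hint.trans h11)
  have e1 : 3072 / ((K : ℝ) ^ 2 * R) * (∑ r ∈ range R, (∫ t in (A - R * h)..(B + 2 * R * h), Φ r t) +
      R * (h * (2 * R * M ^ 2))) = 3072 / (K ^ 2 * R) * ∑ r ∈ range R,
        (∫ t in (A - R * h)..(B + 2 * R * h), Φ r t) + 3072 / K ^ 2 * (2 * R * h * M ^ 2) := by
    have : (R : ℝ) ≠ 0 := by positivity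
    field_simp
  rw [e1] at hfin
  rw [hΨ, hΦ] at hfin
  rw [← hR]
  exact hfin

end Pool.Agent.Q31.RG
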