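import Pool.Agent.Q31.RG.Win
import Pool.Agent.TH850.UV.NVh

set_option autoImplicit false

/-! # Rigidity of the zeros -/

open Finset MeasureTheory Set intervalIntegral

namespace Pool.Agent.Q31.RG

open Pool.Agent.TH850.UV
open Pool.Agent.TH850.UR (ew zeros mem_Z fin_eq)
open H370 (zz Zf mult mem_Zf good_zeta NN NN_eq zz_re zz_im)

lemma cnt_neg {t h : ℝ} (hh : h ≤ 0) : cnt t h = 0 := by
  unfold cnt
  have : {s : ℂ | s ∈ zeros ∧ (t < s.im ∧ s.im ≤ t + h)} = ∅ := by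
    ext s
    simp only [Set.mem_ofPred_eq, Set.mem_empty_iff_false, iff_false, not_and, not_le]
    intro _ h1
    linarith
  rw [this, finsum_mem_empty]

lemma cnt_add {t h k : ℝ} (ht : 1 ≤ t) (hh : 0 ≤ h) (hk : 0 ≤ k) :
    (cnt t (h + k) : ℝ) = cnt t h + cnt (t + h) k := by
  rw [cnt_eq (A := 1) (B := t + (h + k)) le_rfl ht le_rfl,
    cnt_eq (A := 1) (B := t + (h + k)) le_rfl ht (by linarith),
    cnt_eq (A := 1) (B := t + (h + k)) le_rfl (by linarith) (by linarith)]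
  unfold NS
  rw [← Finset.sum_add_distrib]
  refine Finset.sum_congr rfl fun s _ => ?_
  rw [← mul_add]
  congr 1
  by_cases h1 : t < s.im ∧ s.im ≤ t + h
  · rw [if_pos h1, if_pos ⟨h1.1, by linarith [h1.2]⟩, if_neg (fun h2 => by linarith [h2.1, h1.2])]
    ring
  · rw [if_neg h1]
    by_cases h2 : t + h < s.im ∧ s.im ≤ t + h + k
    · rw [if_pos h2, if_pos ⟨by linarith [h2.1], by linarith [h2.2]⟩]
      ring
    · rw [if_neg h2, if_neg]
      · ring
      · rintro ⟨h3, h4⟩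
        by_cases h5 : s.im ≤ t + h
        · exact h1 ⟨h3, h5⟩
        · exact h2 ⟨not_le.mp h5, by linarith⟩

/-- the counting function, minus a linear function -/
noncomputable def HH (L t : ℝ) : ℝ := (cnt 1 (t - 1) : ℝ) - L / (2 * Real.pi) * t

lemma HH_sub {L t h : ℝ} (ht : 1 ≤ t) (hh : 0 ≤ h) :
    HH L (t + h) - HH L t = cnt t h - L / (2 * Real.pi) * h := by
  unfold HH
  have h1 := cnt_add (t := 1) (h := t - 1) (k := h) le_rfl (by linarith) hh
  rw [show 1 + (t - 1) = t by ring, show t - 1 + h = t + h - 1 by ring] at h1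
  rw [h1]
  ring

lemma cnt_mono : Monotone fun t : ℝ => (cnt 1 (t - 1) : ℝ) := by
  intro s t hst
  simp only
  rcases le_or_gt s 1 with h1 | h1
  · rw [cnt_neg (by linarith)]
    simp
  · have h2 := cnt_add (t := 1) (h := s - 1) (k := t - s) le_rfl (by linarith) (by linarith)
    rw [show s - 1 + (t - s) = t - 1 by ring] at h2
    rw [h2]
    have : (0 : ℝ) ≤ (cnt (1 + (s - 1)) (t - s) : ℝ) := Nat.cast_nonneg _
    linarith

lemma HH_LB (L : ℝ) : LB (HH L) := by
  have h1 : LB fun t : ℝ => (cnt 1 (t - 1) : ℝ) := by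
    refine ⟨cnt_mono.measurable, fun A B => ⟨cnt 1 (B - 1), fun t ht => ?_⟩⟩
    rw [abs_of_nonneg (Nat.cast_nonneg _)]
    exact cnt_mono ht.2
  have h2 : LB fun t : ℝ => t := by
    refine ⟨measurable_id, fun A B => ⟨|A| + |B|, fun t ht => ?_⟩⟩
    rw [abs_le]
    constructor
    · have := neg_abs_le A
      have := abs_nonneg B
      linarith [ht.1]
    · have := le_abs_self B
      have := abs_nonneg A
      linarith [ht.2]
  exact h1.sub (h2.const_mul _)

lemma log_sq_le {T : ℝ} (hT : 1 ≤ T) : Real.log T ^ 2 ≤ 4 * T := by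
  have h1 : Real.log T = 2 * Real.log (Real.sqrt T) := by
    rw [Real.log_sqrt (by linarith)]
    ring
  have h2 : Real.log (Real.sqrt T) ≤ Real.sqrt T := by
    have := Real.log_le_sub_one_of_pos (Real.sqrt_pos.2 (by linarith : 0 < T))
    linarith
  have h3 : 0 ≤ Real.log (Real.sqrt T) := Real.log_nonneg (by
    rw [Real.one_le_sqrt]; exact hT)
  rw [h1]
  have h4 := Real.sq_sqrt (by linarith : 0 ≤ T)
  nlinarith

/-- **rigidity, mean square form** -/
theorem rig : ∃ C T0 : ℝ, 0 < C ∧ 10 ≤ T0 ∧ ∀ T : ℝ, T0 ≤ T → ∀ a : ℝ, 0 < a → ∀ K : ℕ, 2 ≤ K →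
    2 ^ K * a * Real.log (2 ^ K * a) ≤ Real.log T →
    IntervalIntegrable (fun t => (∑ j ∈ Finset.Ioo (-(2 : ℤ) ^ K) (2 ^ K), c K j *
      ((cnt (t + j * (2 * Real.pi * a / Real.log T)) (2 * Real.pi * a / Real.log T) : ℝ) - a)) ^ 2)
      volume T (2 * T) ∧
    ∫ t in T..(2 * T), (∑ j ∈ Finset.Ioo (-(2 : ℤ) ^ K) (2 ^ K), c K j *
      ((cnt (t + j * (2 * Real.pi * a / Real.log T)) (2 * Real.pi * a / Real.log T) : ℝ) - a)) ^ 2 ≤
      C * T * (1 + Real.log (1 + 2 ^ K * a)) / K ^ 2 := by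
  obtain ⟨C1, T1, hC1, hT1, hnv⟩ := nv2 1 le_rfl
  obtain ⟨C2, hC2, hcr⟩ := cnt_crude
  have hpi := Real.pi_pos
  have hpi3 := Real.pi_gt_three
  have hpi4 := Real.pi_lt_four
  obtain ⟨CM, hCM⟩ : ∃ CM : ℝ, CM = 3072 * (1 + C1 + 35 * (4 * (C2 + 2) ^ 2)) := ⟨_, rfl⟩
  refine ⟨CM, max T1 100, by rw [hCM]; positivity, hT1.trans (le_max_left _ _),
    fun T hT a ha K hK hcond => ?_⟩
  have hTT1 : T1 ≤ T := (le_max_left _ _).trans hT
  have hT100 : 100 ≤ T := (le_max_right _ _).trans hT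
  obtain ⟨L, hL⟩ : ∃ L : ℝ, L = Real.log T := ⟨_, rfl⟩
  obtain ⟨R, hR⟩ : ∃ R : ℕ, R = 2 ^ K := ⟨_, rfl⟩
  have hRr : (2 : ℝ) ^ K = R := by rw [hR]; push_cast; rfl
  have hR1 : 1 ≤ R := by rw [hR]; exact Nat.one_le_two_pow
  have hR1r : (1 : ℝ) ≤ R := by exact_mod_cast hR1
  have hK0 : (0 : ℝ) < K := by
    have : 0 < K := by omega
    exact_mod_cast this
  have hL4 : 4 ≤ L := by
    rw [hL]
    have h1 : Real.log 100 ≤ Real.log T := Real.log_le_log (by norm_num) hT100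
    have h2 : 4 ≤ Real.log 100 := by
      rw [show (100 : ℝ) = 10 ^ 2 by norm_num, Real.log_pow]
      have : 2 ≤ Real.log 10 := by
        rw [Real.le_log_iff_exp_le (by norm_num)]
        have := Real.exp_one_lt_d9
        rw [show (2 : ℝ) = 1 + 1 by norm_num, Real.exp_add]
        have h0 := Real.exp_pos 1
        nlinarith
      push_cast
      linarith
    linarith
  rw [← hL] at hcond ⊢
  rw [hRr] at hcond ⊢
  obtain ⟨h, hh⟩ : ∃ h : ℝ, h = 2 * Real.pi * a / L := ⟨_, rfl⟩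
  have hL0 : 0 < L := by linarith
  have hh0 : 0 < h := by rw [hh]; positivity
  rw [← hh]
  have hLh : L / (2 * Real.pi) * h = a := by rw [hh]; field_simp
  have hRa0 : 0 < (R : ℝ) * a := by positivity
  have hRaL : (R : ℝ) * a ≤ L := by
    rcases le_or_gt ((R : ℝ) * a) (Real.exp 1) with h1 | h1
    · have := Real.exp_one_lt_d9
      linarith
    · have h2 : 1 ≤ Real.log (R * a) := by
        rw [Real.le_log_iff_exp_le hRa0]
        exact h1.le
      nlinarith
  have hRh : (R : ℝ) * h ≤ 7 := by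
    have h1 : (R : ℝ) * h = 2 * Real.pi * (R * a) / L := by rw [hh]; ring
    rw [h1, div_le_iff₀ hL0]
    have h2 : Real.pi < 3.15 := Real.pi_lt_d2
    nlinarith
  obtain ⟨M, hM⟩ : ∃ M : ℝ, M = (C2 + 2) * L := ⟨_, rfl⟩
  have hM0 : 0 ≤ M := by rw [hM]; positivity
  have hosc : ∀ s t : ℝ, T - R * h ≤ s → s ≤ t → t ≤ 2 * T + 3 * R * h → t - s ≤ R * h →
      |HH L t - HH L s| ≤ M := by
    intro s t h1 h2 h3 h4
    have h5 := HH_sub (L := L) (t := s) (h := t - s) (by linarith) (by linarith)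
    rw [show s + (t - s) = t by ring] at h5
    rw [h5]
    have h6 := hcr T (by linarith) s (t - s) (by linarith) (by linarith) (by linarith) (by linarith)
    rw [← hL] at h6
    have h7 : (0 : ℝ) ≤ (cnt s (t - s) : ℝ) := Nat.cast_nonneg _
    have h8 : L / (2 * Real.pi) * (t - s) ≤ 2 * L := by
      rw [div_mul_eq_mul_div, div_le_iff₀ (by positivity)]
      nlinarith
    have h9 : 0 ≤ L / (2 * Real.pi) * (t - s) := mul_nonneg (by positivity) (by linarith)
    rw [abs_le, hM]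
    constructor <;> nlinarith
  have hwin := win (HH L) (HH_LB L) K hK T (2 * T) h M hh0 (by linarith) hM0
    (by rw [hRr]; exact hosc)
  rw [hRr, ← hR] at hwin
  have hpe : ∀ t ∈ Set.Icc T (2 * T), (∑ j ∈ Finset.Ioo (-(2 : ℤ) ^ K) (2 ^ K), c K j *
      (HH L (t + (j + 1) * h) - HH L (t + j * h))) ^ 2 =
      (∑ j ∈ Finset.Ioo (-(2 : ℤ) ^ K) (2 ^ K), c K j *
      ((cnt (t + j * h) h : ℝ) - a)) ^ 2 := by
    intro t ht
    refine congrArg (fun x : ℝ => x ^ 2) (Finset.sum_congr rfl fun j hj => ?_)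
    rw [Finset.mem_Ioo] at hj
    congr 1
    have h1 : -(R : ℝ) < j := by
      have : -((2 : ℤ) ^ K) < j := hj.1
      have h2 : ((-((2 : ℤ) ^ K) : ℤ) : ℝ) < (j : ℝ) := by exact_mod_cast this
      rw [← hRr]
      push_cast at h2
      exact h2
    have h2 : 1 ≤ t + j * h := by nlinarith [ht.1]
    have h3 := HH_sub (L := L) h2 hh0.le
    rw [hLh, show t + (j : ℝ) * h + h = t + (j + 1) * h by ring] at h3
    exact h3
  have hl : ∫ t in T..(2 * T), (∑ j ∈ Finset.Ioo (-(2 : ℤ) ^ K) (2 ^ K), c K j *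
      (HH L (t + (j + 1) * h) - HH L (t + j * h))) ^ 2 =
      ∫ t in T..(2 * T), (∑ j ∈ Finset.Ioo (-(2 : ℤ) ^ K) (2 ^ K), c K j *
      ((cnt (t + j * h) h : ℝ) - a)) ^ 2 := by
    refine intervalIntegral.integral_congr fun t ht => ?_
    rw [Set.uIcc_of_le (by linarith)] at ht
    exact hpe t ht
  have hii : IntervalIntegrable (fun t => (∑ j ∈ Finset.Ioo (-(2 : ℤ) ^ K) (2 ^ K), c K j *
      ((cnt (t + j * h) h : ℝ) - a)) ^ 2) volume T (2 * T) := by
    have lbZ : LB fun t => (∑ j ∈ Finset.Ioo (-(2 : ℤ) ^ K) (2 ^ K), c K j *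
      (HH L (t + (j + 1) * h) - HH L (t + j * h))) ^ 2 :=
      LB.sq (LB.sum fun j _ => (((HH_LB _).shift _).sub ((HH_LB _).shift _)).const_mul _)
    refine (lbZ.ii T (2 * T)).congr ?_
    intro t ht
    rw [Set.uIoc_of_le (by linarith)] at ht
    exact hpe t ⟨ht.1.le, ht.2⟩
  refine ⟨hii, ?_⟩
  rw [hl] at hwin
  refine hwin.trans ?_
  -- the block variances
  have hblk : ∀ r ∈ Finset.range R, ∫ t in (T - R * h)..(2 * T + 2 * R * h),
      (HH L (t + (r + 1) * h) - HH L t) ^ 2 ≤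
      T * Real.log (1 + R * a) + C1 * T + 21 * M ^ 2 := by
    intro r hr
    rw [Finset.mem_range] at hr
    have hr1 : (r : ℝ) + 1 ≤ R := by exact_mod_cast hr
    have hr0 : (0 : ℝ) ≤ r := Nat.cast_nonneg r
    have hra : 0 < ((r : ℝ) + 1) * a := by positivity
    have hraR : ((r : ℝ) + 1) * a ≤ R * a := mul_le_mul_of_nonneg_right hr1 ha.le
    have hc1 : ((r : ℝ) + 1) * a * Real.log (((r : ℝ) + 1) * a) ≤ 1 * Real.log T := by
      rw [one_mul, ← hL]
      rcases le_or_gt (((r : ℝ) + 1) * a) 1 with h1 | h1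
      · have h2 : Real.log (((r : ℝ) + 1) * a) ≤ 0 := Real.log_nonpos hra.le h1
        nlinarith
      · have h2 : Real.log (((r : ℝ) + 1) * a) ≤ Real.log (R * a) := Real.log_le_log hra hraR
        have h3 : 0 ≤ Real.log (((r : ℝ) + 1) * a) := Real.log_nonneg h1.le
        calc ((r : ℝ) + 1) * a * Real.log (((r : ℝ) + 1) * a) ≤ R * a * Real.log (R * a) :=
              mul_le_mul hraR h2 h3 hRa0.le
          _ ≤ L := hcond
    obtain ⟨_, h4⟩ := hnv T hTT1 (((r : ℝ) + 1) * a) hra hc1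
    rw [← hL] at h4
    have e1 : 2 * Real.pi * (((r : ℝ) + 1) * a) / L = ((r : ℝ) + 1) * h := by rw [hh]; ring
    rw [e1] at h4
    have e2 : ∫ t in T..(2 * T), (HH L (t + (r + 1) * h) - HH L t) ^ 2 =
        ∫ t in T..(2 * T), ((cnt t (((r : ℝ) + 1) * h) : ℝ) - ((r : ℝ) + 1) * a) ^ 2 := by
      refine intervalIntegral.integral_congr fun t ht => ?_
      rw [Set.uIcc_of_le (by linarith)] at ht
      have h5 := HH_sub (L := L) (t := t) (h := ((r : ℝ) + 1) * h) (by linarith [ht.1])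
        (by positivity)
      rw [h5]
      congr 2
      rw [← hLh]
      ring
    have lbΦ : LB fun t => (HH L (t + (r + 1) * h) - HH L t) ^ 2 :=
      LB.sq (((HH_LB L).shift _).sub (HH_LB L))
    have hrh : ((r : ℝ) + 1) * h ≤ R * h := mul_le_mul_of_nonneg_right hr1 hh0.le
    have hrh0 : 0 < ((r : ℝ) + 1) * h := by positivity
    have hbd : ∀ t : ℝ, T - R * h ≤ t → t ≤ 2 * T + 2 * R * h →
        (HH L (t + (r + 1) * h) - HH L t) ^ 2 ≤ M ^ 2 := by
      intro t h1 h2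
      rw [← sq_abs]
      exact pow_le_pow_left₀ (abs_nonneg _) (hosc t (t + (r + 1) * h) h1 (by linarith)
        (by linarith) (by linarith)) 2
    have hRh0 : 0 ≤ (R : ℝ) * h := by positivity
    have e3 : ∫ t in (T - R * h)..T, (HH L (t + (r + 1) * h) - HH L t) ^ 2 ≤ 7 * M ^ 2 := by
      have h5 := intervalIntegral.integral_mono_on (a := T - R * h) (b := T) (by linarith)
        (lbΦ.ii _ _) (intervalIntegrable_const (c := M ^ 2))
        (fun t ht => hbd t ht.1 (by linarith [ht.2]))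
      rw [intervalIntegral.integral_const, smul_eq_mul] at h5
      have h6 : (T - (T - R * h)) * M ^ 2 ≤ 7 * M ^ 2 :=
        mul_le_mul_of_nonneg_right (by linarith) (sq_nonneg M)
      linarith
    have e4 : ∫ t in (2 * T)..(2 * T + 2 * R * h), (HH L (t + (r + 1) * h) - HH L t) ^ 2 ≤
        14 * M ^ 2 := by
      have h5 := intervalIntegral.integral_mono_on (a := 2 * T) (b := 2 * T + 2 * R * h)
        (by linarith) (lbΦ.ii _ _) (intervalIntegrable_const (c := M ^ 2))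
        (fun t ht => hbd t (by linarith [ht.1]) ht.2)
      rw [intervalIntegral.integral_const, smul_eq_mul] at h5
      have h6 : (2 * T + 2 * R * h - 2 * T) * M ^ 2 ≤ 14 * M ^ 2 :=
        mul_le_mul_of_nonneg_right (by linarith) (sq_nonneg M)
      linarith
    have e5 : ∫ t in T..(2 * T), (HH L (t + (r + 1) * h) - HH L t) ^ 2 ≤
        T * Real.log (1 + R * a) + C1 * T := by
      rw [e2]
      have h5 := (abs_le.1 h4).2
      have h6 : Real.log (1 + ((r : ℝ) + 1) * a) ≤ Real.log (1 + R * a) :=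
        Real.log_le_log (by positivity) (by linarith)
      have h7 : 0 ≤ Real.log (1 + ((r : ℝ) + 1) * a) := Real.log_nonneg (by linarith)
      have h8 : T / Real.pi ^ 2 * Real.log (1 + ((r : ℝ) + 1) * a) ≤ T * Real.log (1 + R * a) := by
        apply mul_le_mul _ h6 h7 (by linarith)
        rw [div_le_iff₀ (by positivity)]
        have h9 : (1 : ℝ) ≤ Real.pi ^ 2 := by nlinarith only [hpi3]
        exact le_mul_of_one_le_right (by linarith) h9
      linarith
    rw [← integral_add_adjacent_intervals (b := T) (lbΦ.ii _ _) (lbΦ.ii _ _),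
      ← integral_add_adjacent_intervals (a := T) (b := 2 * T) (lbΦ.ii _ _) (lbΦ.ii _ _)]
    linarith
  have hsum := Finset.sum_le_sum hblk
  rw [Finset.sum_const, Finset.card_range, nsmul_eq_mul] at hsum
  have hM2 : M ^ 2 ≤ 4 * (C2 + 2) ^ 2 * T := by
    rw [hM, mul_pow]
    have := log_sq_le (by linarith : 1 ≤ T)
    rw [← hL] at this
    nlinarith [sq_nonneg (C2 + 2)]
  have hlog0 : 0 ≤ Real.log (1 + R * a) := Real.log_nonneg (by linarith)
  have hstep : 3072 / ((K : ℝ) ^ 2 * R) * (R * (T * Real.log (1 + R * a) + C1 * T + 21 * M ^ 2)) +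
      3072 / (K : ℝ) ^ 2 * (2 * R * h * M ^ 2) ≤ CM * T * (1 + Real.log (1 + R * a)) / K ^ 2 := by
    have e1 : 3072 / ((K : ℝ) ^ 2 * R) * (R * (T * Real.log (1 + R * a) + C1 * T + 21 * M ^ 2)) +
        3072 / (K : ℝ) ^ 2 * (2 * R * h * M ^ 2) =
        3072 * (T * Real.log (1 + R * a) + C1 * T + 21 * M ^ 2 + 2 * (R * h) * M ^ 2) / K ^ 2 := by
      have : (R : ℝ) ≠ 0 := by positivity
      field_simp
    rw [e1]
    apply div_le_div_of_nonneg_right _ (by positivity)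
    have h1 : 2 * (R * h) * M ^ 2 ≤ 14 * M ^ 2 :=
      mul_le_mul_of_nonneg_right (by linarith) (sq_nonneg M)
    have h2 : T * Real.log (1 + R * a) + C1 * T + 21 * M ^ 2 + 2 * (R * h) * M ^ 2 ≤
        T * Real.log (1 + R * a) + C1 * T + 35 * (4 * (C2 + 2) ^ 2 * T) := by linarith
    rw [hCM]
    have h3 : 0 ≤ C1 * T * Real.log (1 + R * a) := by positivity
    have h4 : 0 ≤ 35 * (4 * (C2 + 2) ^ 2) * T * Real.log (1 + R * a) := by positivity
    have h5 : 0 ≤ T := by linarith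
    nlinarith
  refine le_trans ?_ hstep
  have h12 := mul_le_mul_of_nonneg_left hsum
    (by positivity : (0 : ℝ) ≤ 3072 / ((K : ℝ) ^ 2 * R))
  linarith

/-- **rigidity, exact form**: the count is the nearest integer to the prediction from outside -/
theorem rig_round : ∃ C T0 : ℝ, 0 < C ∧ 10 ≤ T0 ∧ ∀ T : ℝ, T0 ≤ T → ∀ a : ℝ, 0 < a →
    ∀ K : ℕ, 2 ≤ K → 2 ^ K * a * Real.log (2 ^ K * a) ≤ Real.log T →
    volume {t : ℝ | T ≤ t ∧ t ≤ 2 * T ∧
      (cnt t (2 * Real.pi * a / Real.log T) : ℤ) ≠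
        round (a - ∑ j ∈ (Finset.Ioo (-(2 : ℤ) ^ K) (2 ^ K)).erase 0, c K j *
          ((cnt (t + j * (2 * Real.pi * a / Real.log T)) (2 * Real.pi * a / Real.log T) : ℝ) - a))} ≤
      ENNReal.ofReal (C * T * (1 + Real.log (1 + 2 ^ K * a)) / K ^ 2) := by
  obtain ⟨C, T0, hC, hT0, h⟩ := rig
  refine ⟨4 * C, max T0 100, by positivity, hT0.trans (le_max_left _ _), fun T hT a ha K hK hc => ?_⟩
  have hTT0 : T0 ≤ T := (le_max_left _ _).trans hT
  have hT100 : 100 ≤ T := (le_max_right _ _).trans hT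
  have h1 := (h T hTT0 a ha K hK hc).2
  have hL0 : 0 < Real.log T := Real.log_pos (by linarith)
  have hpi := Real.pi_pos
  obtain ⟨w, hw⟩ : ∃ w : ℝ, w = 2 * Real.pi * a / Real.log T := ⟨_, rfl⟩
  have hw0 : 0 < w := by rw [hw]; positivity
  rw [← hw] at h1 ⊢
  -- the window is short
  have hRw : (2 : ℝ) ^ K * w ≤ 8 := by
    have hLe : Real.exp 1 ≤ Real.log T := by
      rw [Real.le_log_iff_exp_le (by linarith)]
      have h2 := Real.exp_one_lt_d9
      have h3 : Real.exp (Real.exp 1) ≤ Real.exp 3 := Real.exp_le_exp.2 (by linarith)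
      have h4 : Real.exp 3 = Real.exp 1 ^ 3 := by rw [← Real.exp_nat_mul]; norm_num
      have h5 : Real.exp 1 ^ 3 ≤ 2.7182818286 ^ 3 :=
        pow_le_pow_left₀ (Real.exp_pos 1).le h2.le 3
      have h6 : (2.7182818286 : ℝ) ^ 3 ≤ 100 := by norm_num
      linarith
    have hRa0 : 0 < (2 : ℝ) ^ K * a := by positivity
    have hRaL : (2 : ℝ) ^ K * a ≤ Real.log T := by
      rcases le_or_gt ((2 : ℝ) ^ K * a) (Real.exp 1) with h1 | h1
      · linarith
      · have h2 : 1 ≤ Real.log (2 ^ K * a) := by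
          rw [Real.le_log_iff_exp_le hRa0]
          exact h1.le
        nlinarith
    have h2 : (2 : ℝ) ^ K * w = 2 * Real.pi * (2 ^ K * a) / Real.log T := by rw [hw]; ring
    rw [h2, div_le_iff₀ hL0]
    have := Real.pi_lt_four
    nlinarith
  obtain ⟨Y, hY⟩ : ∃ Y : ℝ → ℝ, Y = fun t => ∑ j ∈ Finset.Ioo (-(2 : ℤ) ^ K) (2 ^ K), c K j *
      ((cnt (t + j * w) w : ℝ) - a) := ⟨_, rfl⟩
  -- an everywhere measurable version
  obtain ⟨Z, hZ⟩ : ∃ Z : ℝ → ℝ, Z = fun t => ∑ j ∈ Finset.Ioo (-(2 : ℤ) ^ K) (2 ^ K), c K j *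
      (HH (Real.log T) (t + (j + 1) * w) - HH (Real.log T) (t + j * w)) := ⟨_, rfl⟩
  have hLw : Real.log T / (2 * Real.pi) * w = a := by rw [hw]; field_simp
  have hYZ : ∀ t ∈ Set.Icc T (2 * T), Y t = Z t := by
    intro t ht
    rw [hY, hZ]
    refine Finset.sum_congr rfl fun j hj => ?_
    rw [Finset.mem_Ioo] at hj
    congr 1
    have h2 : -((2 : ℝ) ^ K) < j := by
      have h3 : ((-((2 : ℤ) ^ K) : ℤ) : ℝ) < (j : ℝ) := by exact_mod_cast hj.1
      push_cast at h3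
      exact h3
    have h4 : 1 ≤ t + j * w := by nlinarith [ht.1]
    have h5 := HH_sub (L := Real.log T) h4 hw0.le
    rw [hLw, show t + (j : ℝ) * w + w = t + (j + 1) * w by ring] at h5
    exact h5.symm
  have lbZ : LB Z := by
    rw [hZ]
    exact LB.sum fun j _ => (((HH_LB _).shift _).sub ((HH_LB _).shift _)).const_mul _
  have hint : ∫ t in T..(2 * T), Z t ^ 2 ≤ C * T * (1 + Real.log (1 + 2 ^ K * a)) / K ^ 2 := by
    refine le_trans (le_of_eq ?_) h1
    refine intervalIntegral.integral_congr fun t ht => ?_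
    rw [Set.uIcc_of_le (by linarith)] at ht
    rw [← hYZ t ht, hY]
  have hsub : {t : ℝ | T ≤ t ∧ t ≤ 2 * T ∧ (cnt t w : ℤ) ≠
        round (a - ∑ j ∈ (Finset.Ioo (-(2 : ℤ) ^ K) (2 ^ K)).erase 0, c K j *
          ((cnt (t + j * w) w : ℝ) - a))} ⊆ {t : ℝ | t ∈ Set.Icc T (2 * T) ∧ 1 / 2 ≤ |Z t|} := by
    rintro t ⟨ht1, ht2, ht3⟩
    refine ⟨⟨ht1, ht2⟩, ?_⟩
    by_contra hcon
    push Not at hcon
    apply ht3
    rw [← hYZ t ⟨ht1, ht2⟩, hY] at hcon
    simp only at hcon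
    have h0 : (0 : ℤ) ∈ Finset.Ioo (-(2 : ℤ) ^ K) (2 ^ K) := by
      rw [Finset.mem_Ioo]
      have : (0 : ℤ) < 2 ^ K := by positivity
      exact ⟨by linarith, this⟩
    rw [← Finset.add_sum_erase _ _ h0, c_zero K (by omega)] at hcon
    simp only [Int.cast_zero, zero_mul, add_zero, one_mul] at hcon
    obtain ⟨P, hP⟩ : ∃ P : ℝ, P = ∑ j ∈ (Finset.Ioo (-(2 : ℤ) ^ K) (2 ^ K)).erase 0, c K j *
          ((cnt (t + j * w) w : ℝ) - a) := ⟨_, rfl⟩
    rw [← hP] at hcon ⊢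
    symm
    rw [round_eq, Int.floor_eq_iff]
    rw [abs_lt] at hcon
    push_cast
    constructor
    · linarith [hcon.2]
    · linarith [hcon.1]
  refine (measure_mono hsub).trans ?_
  have hmeas : MeasurableSet {t : ℝ | t ∈ Set.Icc T (2 * T) ∧ 1 / 2 ≤ |Z t|} := by
    refine measurableSet_Icc.inter ?_
    exact measurableSet_le measurable_const (lbZ.1.abs)
  have hfin : volume {t : ℝ | t ∈ Set.Icc T (2 * T) ∧ 1 / 2 ≤ |Z t|} ≠ ⊤ := by
    refine ne_top_of_le_ne_top ?_ (measure_mono (fun t ht => ht.1 : _ ⊆ Set.Icc T (2 * T)))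
    rw [Real.volume_Icc]
    exact ENNReal.ofReal_ne_top
  rw [ENNReal.le_ofReal_iff_toReal_le hfin (by
    have : 0 ≤ Real.log (1 + 2 ^ K * a) := Real.log_nonneg (by
      have : 0 < (2 : ℝ) ^ K * a := by positivity
      linarith)
    positivity)]
  have h3 : (volume {t : ℝ | t ∈ Set.Icc T (2 * T) ∧ 1 / 2 ≤ |Z t|}).toReal * (1 / 4) ≤
      ∫ t in T..(2 * T), Z t ^ 2 := by
    rw [intervalIntegral.integral_of_le (by linarith), ← integral_Icc_eq_integral_Ioc]
    have h4 : ∫ t in {t : ℝ | t ∈ Set.Icc T (2 * T) ∧ 1 / 2 ≤ |Z t|}, (1 / 4 : ℝ) =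
        (volume {t : ℝ | t ∈ Set.Icc T (2 * T) ∧ 1 / 2 ≤ |Z t|}).toReal * (1 / 4) := by
      rw [setIntegral_const, smul_eq_mul]
      rfl
    rw [← h4]
    have hI : IntegrableOn (fun t => Z t ^ 2) (Set.Icc T (2 * T)) := by
      have := (lbZ.sq).ii T (2 * T)
      rwa [intervalIntegrable_iff_integrableOn_Icc_of_le (by linarith)] at this
    refine (setIntegral_mono_on (integrableOn_const hfin) (hI.mono_set fun t ht => ht.1) hmeas
      fun t ht => ?_).trans (setIntegral_mono_set hI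
        (Filter.Eventually.of_forall fun t => sq_nonneg _)
        (Filter.Eventually.of_forall fun t ht => ht.1))
    rw [← sq_abs]
    have h5 := ht.2
    nlinarith [abs_nonneg (Z t)]
  have e9 : 4 * C * T * (1 + Real.log (1 + 2 ^ K * a)) / K ^ 2 =
      4 * (C * T * (1 + Real.log (1 + 2 ^ K * a)) / K ^ 2) := by ring
  rw [e9]
  linarith

end Pool.Agent.Q31.RG
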